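import Pool.Agent.Q153.Debreu
import Pool.Agent.Q153.FreeTVS

/-!
A Hausdorff space all of whose nonempty subspaces have the continuous representability property,
but which fails the semicontinuous representability property.
-/

set_option autoImplicit false

open Set Topology TopologicalSpace Filter

namespace Pool.Agent.Results.MP_67ce71_gt.HausdorffCounterexample

/-- `r` is a total preorder (reflexive, transitive, complete). -/
def IsTotalPreorder {X : Type} (r : X → X → Prop) : Prop :=
  (∀ x, r x x) ∧ (∀ x y z, r x y → r y z → r x z) ∧ ∀ x y, r x y ∨ r y x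

/-- The strict part of a relation. -/
def Strict {X : Type} (r : X → X → Prop) (x y : X) : Prop := r x y ∧ ¬ r y x

/-- `r` is lower semicontinuous: every `U(x) = {y : x ≺ y}` is open. -/
def LSC (X : Type) [TopologicalSpace X] (r : X → X → Prop) : Prop :=
  ∀ x, IsOpen {y | Strict r x y}

/-- `r` is upper semicontinuous: every `L(x) = {y : y ≺ x}` is open. -/
def USC (X : Type) [TopologicalSpace X] (r : X → X → Prop) : Prop :=
  ∀ x, IsOpen {y | Strict r y x}

/-- `u` is a utility representation of `r`. -/
def IsUtility {X : Type} (r : X → X → Prop) (u : X → ℝ) : Prop := ∀ x y, r x y ↔ u x ≤ u y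

/-- The semicontinuous representability property. -/
def SRP (X : Type) [TopologicalSpace X] : Prop :=
  (∀ r : X → X → Prop, IsTotalPreorder r → LSC X r →
    ∃ u : X → ℝ, IsUtility r u ∧ ∀ a : ℝ, IsOpen {x | a < u x}) ∧
  (∀ r : X → X → Prop, IsTotalPreorder r → USC X r →
    ∃ u : X → ℝ, IsUtility r u ∧ ∀ a : ℝ, IsOpen {x | u x < a})

/-- The continuous representability property. -/
def CRP (X : Type) [TopologicalSpace X] : Prop :=
  ∀ r : X → X → Prop, IsTotalPreorder r → LSC X r → USC X r →
    ∃ u : X → ℝ, IsUtility r u ∧ Continuous u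

/-- The hereditary continuous representability property. -/
def HCRP (X : Type) [TopologicalSpace X] : Prop :=
  ∀ Y : Set X, Y.Nonempty → CRP Y

/-- The points of the space: the reals. -/
structure R : Type where
  /-- The real number. -/
  val : ℝ

/-- The topology: a set `s` is open if each of its points has a Euclidean neighbourhood
all but countably many points of which lie in the set. -/
instance : TopologicalSpace R where
  IsOpen s := ∀ x ∈ s, ∃ U : Set ℝ, IsOpen U ∧ x.val ∈ U ∧ {y : R | y.val ∈ U ∧ y ∉ s}.Countable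
  isOpen_univ x _ := ⟨univ, isOpen_univ, mem_univ _, by
    have : {y : R | y.val ∈ (univ : Set ℝ) ∧ y ∉ (univ : Set R)} = ∅ := by
      ext z
      simp
    rw [this]
    exact countable_empty⟩
  isOpen_inter s t hs ht x hx := by
    obtain ⟨U, hU, hxU, hc⟩ := hs x hx.1
    obtain ⟨V, hV, hxV, hd⟩ := ht x hx.2
    refine ⟨U ∩ V, hU.inter hV, ⟨hxU, hxV⟩, (hc.union hd).mono ?_⟩
    rintro z ⟨⟨h1, h2⟩, h3⟩
    by_cases h4 : z ∈ s
    · exact Or.inr ⟨h2, fun h5 => h3 ⟨h4, h5⟩⟩
    · exact Or.inl ⟨h1, h4⟩
  isOpen_sUnion S hS x hx := by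
    obtain ⟨t, ht, hxt⟩ := hx
    obtain ⟨U, hU, hxU, hc⟩ := hS t ht x hxt
    refine ⟨U, hU, hxU, hc.mono ?_⟩
    rintro z ⟨h1, h2⟩
    exact ⟨h1, fun h3 => h2 ⟨t, ht, h3⟩⟩

theorem isOpen_iff {s : Set R} :
    IsOpen s ↔ ∀ x ∈ s, ∃ U : Set ℝ, IsOpen U ∧ x.val ∈ U ∧
      {y : R | y.val ∈ U ∧ y ∉ s}.Countable := Iff.rfl

theorem isOpen_of_real {U : Set ℝ} (hU : IsOpen U) : IsOpen {y : R | y.val ∈ U} := by
  rw [isOpen_iff]
  intro x hx
  refine ⟨U, hU, hx, ?_⟩
  have : {y : R | y.val ∈ U ∧ y ∉ {y : R | y.val ∈ U}} = ∅ := by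
    ext z
    simp
  rw [this]
  exact countable_empty

theorem isOpen_of_compl_countable {s : Set R} (hs : sᶜ.Countable) : IsOpen s := by
  rw [isOpen_iff]
  intro x _
  refine ⟨univ, isOpen_univ, mem_univ _, hs.mono ?_⟩
  rintro z ⟨_, h⟩
  exact h

instance : T2Space R where
  t2 x y hxy := by
    have hne : x.val ≠ y.val := by
      intro h
      apply hxy
      cases x
      cases y
      exact congrArg R.mk h
    obtain ⟨U, V, hU, hV, hx, hy, hd⟩ := t2_separation hne
    refine ⟨_, _, isOpen_of_real hU, isOpen_of_real hV, hx, hy, ?_⟩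
    rw [Set.disjoint_left]
    intro z hz hz'
    exact Set.disjoint_left.1 hd hz hz'

/-- The points of `Y` having a Euclidean neighbourhood with countable trace on `Y`. -/
def Small (Y : Set R) : Set R :=
  {y | y ∈ Y ∧ ∃ U : Set ℝ, IsOpen U ∧ y.val ∈ U ∧ {z | z.val ∈ U ∧ z ∈ Y}.Countable}

theorem small_countable (Y : Set R) : (Small Y).Countable := by
  have hB := isBasis_countableBasis ℝ
  have : Small Y ⊆ ⋃ U ∈ {U ∈ countableBasis ℝ | {z : R | z.val ∈ U ∧ z ∈ Y}.Countable},
      {z : R | z.val ∈ U ∧ z ∈ Y} := by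
    rintro y ⟨hy, U, hU, hyU, hc⟩
    obtain ⟨V, hV, hyV, hVU⟩ := hB.exists_subset_of_mem_open hyU hU
    refine mem_biUnion (x := V) ⟨hV, hc.mono ?_⟩ ⟨hyV, hy⟩
    rintro z ⟨h1, h2⟩
    exact ⟨hVU h1, h2⟩
  refine Countable.mono this (Countable.biUnion ?_ ?_)
  · exact (countable_countableBasis ℝ).mono (fun U hU => hU.1)
  · intro U hU
    exact hU.2

/-- The generators of a coarser second countable topology on `Y`. -/
def gens (Y : Set R) : Set (Set Y) :=
  ((fun U : Set ℝ => {y : Y | (y : R).val ∈ U}) '' countableBasis ℝ) ∪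
    ((fun z : R => {y : Y | (y : R) = z}) '' Small Y) ∪ {{y : Y | (y : R) ∉ Small Y}}

theorem gens_countable (Y : Set R) : (gens Y).Countable :=
  (((countable_countableBasis ℝ).image _).union ((small_countable Y).image _)).union
    (countable_singleton _)

/-- The coarser second countable topology. -/
@[instance_reducible] def sig (Y : Set R) : TopologicalSpace Y := generateFrom (gens Y)

theorem sig_second (Y : Set R) : @SecondCountableTopology Y (sig Y) :=
  @SecondCountableTopology.mk Y (sig Y) ⟨gens Y, gens_countable Y, rfl⟩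

theorem le_sig (Y : Set R) : (instTopologicalSpaceSubtype : TopologicalSpace Y) ≤ sig Y := by
  apply le_generateFrom
  rintro s ((⟨U, hU, rfl⟩ | ⟨z, hz, rfl⟩) | rfl)
  · exact (isOpen_of_real ((isBasis_countableBasis ℝ).isOpen hU)).preimage continuous_subtype_val
  · obtain ⟨hzY, U, hU, hzU, hc⟩ := hz
    have h1 : IsOpen ({w : R | w.val ∈ U ∧ (w ∈ Y → w = z)}) := by
      rw [isOpen_iff]
      intro w hw
      refine ⟨U, hU, hw.1, hc.mono ?_⟩
      rintro v ⟨hv, hv'⟩
      refine ⟨hv, ?_⟩
      by_contra hcon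
      exact hv' ⟨hv, fun h => absurd h hcon⟩
    have h2 := h1.preimage (continuous_subtype_val (p := fun x => x ∈ Y))
    convert h2 using 1
    ext y
    constructor
    · intro hy
      have hy' : (y : R) = z := hy
      exact ⟨by rw [hy']; exact hzU, fun _ => hy'⟩
    · intro hy
      exact hy.2 y.2
  · have h1 : IsOpen ((Small Y)ᶜ : Set R) := by
      apply isOpen_of_compl_countable
      rw [compl_compl]
      exact small_countable Y
    exact h1.preimage continuous_subtype_val

/-- Key lemma: if `A` and `B` are disjoint open subsets of `Y`, and `A` contains almost all of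
the trace of a Euclidean open set, then `B` misses the non-small points of this trace. -/
theorem key {Y : Set R} {A B : Set Y} (hB : IsOpen B) (hAB : Disjoint A B) {G : Set ℝ}
    (hG : IsOpen G) (hc : {y : R | y ∈ Y ∧ y.val ∈ G ∧ ∀ h : y ∈ Y, (⟨y, h⟩ : Y) ∉ A}.Countable)
    {v : Y} (hv : (v : R) ∉ Small Y) (hvG : (v : R).val ∈ G) : v ∉ B := by
  intro hvB
  obtain ⟨t, ht, rfl⟩ := isOpen_induced_iff.1 hB
  obtain ⟨U, hU, hvU, hcU⟩ := isOpen_iff.1 ht v hvB
  apply hv
  refine ⟨v.2, G ∩ U, hG.inter hU, ⟨hvG, hvU⟩, (hc.union hcU).mono ?_⟩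
  rintro z ⟨⟨hz1, hz2⟩, hz3⟩
  by_cases h : z ∈ t
  · left
    refine ⟨hz3, hz1, fun h' h'' => ?_⟩
    exact Set.disjoint_left.1 hAB h'' h
  · exact Or.inr ⟨hz2, h⟩

/-- An open set `A` of `Y` with an open set `B` disjoint from it such that `B` contains every point
outside `S ⊇ A`: then non-small points of `A` are `sig`-interior to `S`. -/
theorem key2 {Y : Set R} {A B S : Set Y} (hA : IsOpen A) (hB : IsOpen B) (hAB : Disjoint A B)
    (hS : Bᶜ ⊆ S) {z : Y} (hz : z ∈ A) (hzs : (z : R) ∉ Small Y) :
    ∃ O : Set Y, IsOpen[sig Y] O ∧ z ∈ O ∧ O ⊆ S := by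
  obtain ⟨t, ht, rfl⟩ := isOpen_induced_iff.1 hA
  obtain ⟨U, hU, hzU, hcU⟩ := isOpen_iff.1 ht z hz
  obtain ⟨V, hV, hzV, hVU⟩ := (isBasis_countableBasis ℝ).exists_subset_of_mem_open
    hzU hU
  refine ⟨{y : Y | (y : R).val ∈ V} ∩ {y : Y | (y : R) ∉ Small Y}, ?_, ⟨hzV, hzs⟩, ?_⟩
  · apply @IsOpen.inter Y (sig Y)
    · exact isOpen_generateFrom_of_mem (Or.inl (Or.inl ⟨V, hV, rfl⟩))
    · exact isOpen_generateFrom_of_mem (Or.inr rfl)
  · rintro v ⟨hv1, hv2⟩
    apply hS
    refine key hB hAB hU ?_ hv2 (hVU hv1)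
    refine hcU.mono ?_
    rintro w ⟨hw1, hw2, hw3⟩
    exact ⟨hw2, fun h => hw3 hw1 h⟩

/-- A `generateFrom` openness criterion. -/
theorem sig_isOpen {Y : Set R} {S : Set Y}
    (h : ∀ z ∈ S, (z : R) ∉ Small Y → ∃ O : Set Y, IsOpen[sig Y] O ∧ z ∈ O ∧ O ⊆ S) :
    IsOpen[sig Y] S := by
  let _ : TopologicalSpace Y := sig Y
  rw [isOpen_iff_forall_mem_open]
  intro z hz
  by_cases hzs : (z : R) ∈ Small Y
  · refine ⟨{y : Y | (y : R) = z}, ?_, ?_, rfl⟩
    · intro y hy
      have : y = z := Subtype.ext hy
      rw [this]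
      exact hz
    · exact isOpen_generateFrom_of_mem (Or.inl (Or.inr ⟨(z : R), hzs, rfl⟩))
  · obtain ⟨O, h1, h2, h3⟩ := h z hz hzs
    exact ⟨O, h3, h1, h2⟩

theorem hcrp : HCRP R := by
  intro Y _ r hr hl hu
  obtain ⟨h1, h2, h3⟩ := hr
  have hst : ∀ x y, Strict r x y ↔ ¬ r y x := by
    intro x y
    constructor
    · exact fun h => h.2
    · exact fun h => ⟨(h3 x y).resolve_right h, h⟩
  have hU' : ∀ x, IsOpen {y | ¬ r y x} := by
    intro x
    have := hl x
    simp only [hst] at this
    exact this
  have hL' : ∀ x, IsOpen {y | ¬ r x y} := by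
    intro x
    have := hu x
    simp only [hst] at this
    exact this
  have hsec := sig_second Y
  obtain ⟨u, hu1, hu2⟩ := @Pool.Agent.Q153.Debreu.debreu Y (sig Y) hsec r h1 h2 h3
    (by
      intro x
      apply sig_isOpen
      intro z hz hzs
      have hz' : ¬ r z x := hz
      by_cases hw : ∃ w, ¬ r w x ∧ ¬ r z w
      · obtain ⟨w, hw1, hw2⟩ := hw
        refine key2 (A := {y | ¬ r y w}) (B := {y | ¬ r w y}) (hU' w) (hL' w) ?_ ?_ hw2 hzs
        · rw [Set.disjoint_left]
          intro y hy hy'
          rcases h3 y w with h | h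
          · exact hy h
          · exact hy' h
        · intro y hy hyx
          have hwy : r w y := by
            by_contra h
            exact hy h
          exact hw1 (h2 _ _ _ hwy hyx)
      · push Not at hw
        refine key2 (A := {y | ¬ r y x}) (B := {y | ¬ r z y}) (hU' x) (hL' z) ?_ ?_ hz' hzs
        · rw [Set.disjoint_left]
          intro y hy hy'
          exact hy' (hw y hy)
        · intro y hy hyx
          have hzy : r z y := by
            by_contra h
            exact hy h
          exact hz' (h2 _ _ _ hzy hyx))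
    (by
      intro x
      apply sig_isOpen
      intro z hz hzs
      have hz' : ¬ r x z := hz
      by_cases hw : ∃ w, ¬ r x w ∧ ¬ r w z
      · obtain ⟨w, hw1, hw2⟩ := hw
        refine key2 (A := {y | ¬ r w y}) (B := {y | ¬ r y w}) (hL' w) (hU' w) ?_ ?_ hw2 hzs
        · rw [Set.disjoint_left]
          intro y hy hy'
          rcases h3 y w with h | h
          · exact hy' h
          · exact hy h
        · intro y hy hyx
          have hyw : r y w := by
            by_contra h
            exact hy h
          exact hw1 (h2 _ _ _ hyx hyw)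
      · push Not at hw
        refine key2 (A := {y | ¬ r x y}) (B := {y | ¬ r y z}) (hL' x) (hU' z) ?_ ?_ hz' hzs
        · rw [Set.disjoint_left]
          intro y hy hy'
          exact hy' (hw y hy)
        · intro y hy hyx
          have hyz : r y z := by
            by_contra h
            exact hy h
          exact hz' (h2 _ _ _ hyx hyz))
  exact ⟨u, hu2, continuous_le_dom (le_sig Y) hu1⟩

open Pool.Agent.Q153.FreeTVS (W countable_Iio mk_W)

/-- There is no strictly monotone map of the first uncountable ordinal into the reals. -/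
theorem not_strictMono (g : W → ℝ) : ¬ StrictMono g := by
  intro hg
  have hmax : ∀ a : W, ∃ b, a < b := by
    intro a
    by_contra hcon
    push Not at hcon
    have : (univ : Set W) = insert a (Iio a) := by
      ext b
      simp only [mem_univ, mem_insert_iff, mem_Iio, true_iff]
      exact (hcon b).eq_or_lt
    have h2 : (univ : Set W).Countable := by
      rw [this]
      exact (countable_Iio a).insert a
    exact (not_countable_iff.2 (inferInstance : Uncountable W)) (countable_univ_iff.1 h2)
  have hsucc : ∀ a : W, ∃ b, a < b ∧ ∀ c, a < c → b ≤ c := by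
    intro a
    have hwf : WellFounded ((· < ·) : W → W → Prop) := wellFounded_lt
    refine ⟨hwf.min {b | a < b} (hmax a), hwf.min_mem _ _, fun c hc => ?_⟩
    exact not_lt.1 (hwf.not_lt_min _ hc)
  choose S hS1 hS2 using hsucc
  have hq : ∀ a, ∃ q : ℚ, g a < q ∧ (q : ℝ) < g (S a) := fun a => exists_rat_btwn (hg (hS1 a))
  choose q hq1 hq2 using hq
  have hinj : StrictMono q := by
    intro a b hab
    have h1 : (q a : ℝ) < q b := lt_trans (lt_of_lt_of_le (hq2 a) (hg.monotone (hS2 a b hab))) (hq1 b)
    exact_mod_cast h1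
  exact (not_countable_iff.2 (inferInstance : Uncountable W)) hinj.injective.countable

/-- The rank of a point. -/
noncomputable def rk (w : W → ℝ) (x : R) : WithTop W :=
  open Classical in if h : ∃ a, w a = x.val then ((h.choose : W) : WithTop W) else ⊤

theorem rk_w {w : W → ℝ} (hw : Function.Injective w) (a : W) : rk w ⟨w a⟩ = (a : WithTop W) := by
  have h : ∃ b, w b = (R.mk (w a)).val := ⟨a, rfl⟩
  unfold rk
  rw [dif_pos h]
  exact congrArg _ (hw h.choose_spec)

theorem rk_eq {w : W → ℝ} {x : R} {a : W} (h : rk w x = (a : WithTop W)) : x = ⟨w a⟩ := by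
  unfold rk at h
  split_ifs at h with h'
  swap
  · exact absurd h WithTop.top_ne_coe
  have h2 : h'.choose = a := WithTop.coe_injective h
  have h3 := h'.choose_spec
  rw [h2] at h3
  cases x
  exact congrArg R.mk h3.symm

theorem not_srp : ¬ SRP R := by
  rintro ⟨h, -⟩
  obtain ⟨w⟩ : Nonempty (W ↪ ℝ) := by
    rw [← Cardinal.le_def, mk_W, Cardinal.mk_real]
    exact Cardinal.aleph_one_le_continuum
  obtain ⟨u, hu, -⟩ := h (fun x y => rk w x ≤ rk w y)
    ⟨fun x => le_rfl, fun x y z => le_trans, fun x y => le_total _ _⟩ (by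
      intro x
      have hst : {y | Strict (fun x y => rk w x ≤ rk w y) x y} = {y | rk w x < rk w y} := by
        ext y
        simp only [Strict, mem_ofPred_eq, not_le]
        constructor
        · exact fun h => h.2
        · exact fun h => ⟨h.le, h⟩
      rw [hst]
      rcases hx : rk w x with _ | a
      · have : {y : R | (⊤ : WithTop W) < rk w y} = ∅ := by
          ext y
          simp
        change IsOpen {y : R | (⊤ : WithTop W) < rk w y}
        rw [this]
        exact isOpen_empty
      · change IsOpen {y : R | ((a : W) : WithTop W) < rk w y}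
        apply isOpen_of_compl_countable
        have h1 : (Iic a).Countable := by
          have : Iic a = insert a (Iio a) := by
            ext b
            simp only [mem_Iic, mem_insert_iff, mem_Iio]
            exact le_iff_eq_or_lt
          rw [this]
          exact (countable_Iio a).insert a
        refine (h1.image (fun b => R.mk (w b))).mono ?_
        intro y hy
        have hy' : rk w y ≤ (a : WithTop W) := not_lt.1 hy
        obtain ⟨b, hb, hb'⟩ := WithTop.le_coe_iff.1 hy'
        exact ⟨b, hb', (rk_eq hb).symm⟩)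
  apply not_strictMono (fun a => u ⟨w a⟩)
  intro a b hab
  by_contra hcon
  have h1 := (hu ⟨w b⟩ ⟨w a⟩).2 (not_lt.1 hcon)
  simp only [rk_w w.injective] at h1
  exact absurd (WithTop.coe_le_coe.1 h1) (not_le.2 hab)

/-- There is a Hausdorff space with the hereditary continuous representability property which does
not have the semicontinuous representability property. -/
theorem result : ∃ (X : Type) (_ : TopologicalSpace X), T2Space X ∧ HCRP X ∧ ¬ SRP X :=
  ⟨R, inferInstance, inferInstance, hcrp, not_srp⟩

end Pool.Agent.Results.MP_67ce71_gt.HausdorffCounterexample
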